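import Mathlib
import Pool.Agent.Lib.MP_b164a8_nt.DK.Main

open Polynomial

namespace Pool.Agent.Results.MP_b164a8_nt.AllParameters

open Pool.Agent.Lib.MP_b164a8_nt

/-- The generalised Fibonacci polynomials `U_n(x, a)`; `a = -1` gives `F_n(x)`. -/
noncomputable def lucasU (a : ℤ) : ℕ → ℤ[X]
  | 0 => 0
  | 1 => 1
  | n + 2 => X * lucasU a (n + 1) - C a * lucasU a n

/-- `f` is monogenic: in `K = ℚ[x]/(f)`, with `θ` the class of `x`, the ring `ℤ[θ]` is the ring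
of all algebraic integers of `K`. -/
def Monogenic (f : ℤ[X]) : Prop :=
  Algebra.adjoin ℤ {AdjoinRoot.root (f.map (Int.castRingHom ℚ))} =
    integralClosure ℤ (AdjoinRoot (f.map (Int.castRingHom ℚ)))

/-- `m` is a square, or squarefree and not `1` modulo `4`. -/
def Good (m : ℤ) : Prop := IsSquare m ∨ (Squarefree m ∧ m % 4 ≠ 1)

theorem result (a : ℤ) (ha : a ≠ 0) :
    (∀ n : ℕ, 0 < n → ∀ f : ℤ[X], f.Monic → Irreducible (f.map (Int.castRingHom ℚ)) →
      f ∣ lucasU a n → ∃ d : ℕ, 2 ≤ d ∧ (∀ k : ℕ, f ∣ lucasU a k ↔ d ∣ k) ∧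
        (Monogenic f ↔
          a = 1 ∨ (a = -1 ∧ d % 4 ≠ 2) ∨ d = 2 ∨ (d = 3 ∧ Good a) ∨ (d = 4 ∧ Good (2 * a)) ∨
            (d = 6 ∧ Good (3 * a)) ∨ (d = 5 ∧ a = 5) ∨ (d = 12 ∧ (a = 2 ∨ a = 6)))) ∧
    ∀ d : ℕ, 2 ≤ d → ∃ f : ℤ[X], f.Monic ∧ Irreducible (f.map (Int.castRingHom ℚ)) ∧
      ∀ k : ℕ, f ∣ lucasU a k ↔ d ∣ k := by
  have halg : Algebra.IsAlgebraic ℚ (AlgebraicClosure ℚ) := AlgebraicClosure.isAlgebraic ℚ
  have hmap : ∀ (t : AlgebraicClosure ℚ) (g : ℤ[X]),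
      aeval t (g.map (Int.castRingHom ℚ)) = aeval t g := fun t g => by
    rw [← algebraMap_int_eq, aeval_map_algebraMap]
  have hdvd : ∀ (t : AlgebraicClosure ℚ) (f : ℤ[X]), f.Monic →
      Irreducible (f.map (Int.castRingHom ℚ)) → aeval t f = 0 →
      ∀ g : ℤ[X], f ∣ g ↔ aeval t g = 0 := fun t f hf hirr ht g => by
    rw [← map_dvd_map (Int.castRingHom ℚ) (RingHom.injective_int _) hf,
      minpoly.eq_of_irreducible_of_monic hirr ((hmap t f).trans ht) (hf.map _), minpoly.dvd_iff,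
      hmap]
  have h0 : ∀ t : AlgebraicClosure ℚ, aeval t (lucasU a 0) = 0 := fun t => by simp [lucasU]
  have h1 : ∀ t : AlgebraicClosure ℚ, aeval t (lucasU a 1) = 1 := fun t => by simp [lucasU]
  have h2 : ∀ (t : AlgebraicClosure ℚ) (n : ℕ), aeval t (lucasU a (n + 2)) =
      t * aeval t (lucasU a (n + 1)) - a * aeval t (lucasU a n) := fun t n => by simp [lucasU]
  constructor
  · intro n hn f hf hirr hfn
    obtain ⟨t, ht⟩ := IsAlgClosed.exists_aeval_eq_zero (AlgebraicClosure ℚ)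
      (f.map (Int.castRingHom ℚ)) (degree_pos_of_irreducible hirr).ne'
    rw [hmap] at ht
    obtain ⟨d, w, z, D⟩ := DK.dat_of_zero (fun k => aeval t (lucasU a k)) (h0 t) (h1 t) (h2 t) ha
      hn ((hdvd t f hf hirr ht _).mp hfn)
    exact ⟨d, D.two, fun k => (hdvd t f hf hirr ht _).trans
      (D.zero_iff (fun k => aeval t (lucasU a k)) (h0 t) (h1 t) (h2 t) ha k),
      (DK.bridge hirr ht D.it).trans (D.classify ha)⟩
  · intro d hd
    obtain ⟨w, z, t, D⟩ := DK.exists_dat (A := AlgebraicClosure ℚ) a hd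
    obtain ⟨f, hf, hirr, ht⟩ := DK.exists_poly D.it
    exact ⟨f, hf, hirr, fun k => (hdvd t f hf hirr ht _).trans
      (D.zero_iff (fun k => aeval t (lucasU a k)) (h0 t) (h1 t) (h2 t) ha k)⟩

/-- The case `a = -1`, even `n`, all factors at once: the Fibonacci polynomials. -/
theorem fibonacci_even (n : ℕ) (hn : 2 ≤ n) (heven : Even n) :
    (∀ f : ℤ[X], f.Monic → Irreducible (f.map (Int.castRingHom ℚ)) → f ∣ lucasU (-1) n →
      Monogenic f) ↔ ∃ k : ℕ, n = 2 ^ k := by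
  obtain ⟨h1, h2⟩ := result (-1) (by norm_num)
  constructor
  · intro h
    refine (Nat.eq_two_pow_or_exists_odd_prime_and_dvd n).resolve_right ?_
    rintro ⟨p, hp, hpn, ho⟩
    have hp2 := hp.two_le
    have hd : 2 * p ∣ n := ho.coprime_two_left.mul_dvd_of_dvd_of_dvd heven.two_dvd hpn
    obtain ⟨f, hf, hirr, hk⟩ := h2 (2 * p) (by omega)
    obtain ⟨d, -, hk', hm⟩ := h1 n (by omega) f hf hirr ((hk n).mpr hd)
    obtain rfl : d = 2 * p :=
      Nat.dvd_antisymm ((hk' _).mp ((hk _).mpr dvd_rfl)) ((hk _).mp ((hk' _).mpr dvd_rfl))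
    obtain ⟨j, hj⟩ := ho
    rcases hm.mp (h f hf hirr ((hk n).mpr hd)) with h | h | h | h | h | ⟨-, h | h⟩ | h | h
    · omega
    · omega
    · omega
    · omega
    · omega
    · exact absurd h.nonneg (by norm_num)
    · omega
    · omega
    · omega
  · rintro ⟨k, rfl⟩ f hf hirr hfn
    obtain ⟨d, hd, hk', hm⟩ := h1 _ (by omega) f hf hirr hfn
    obtain ⟨j, -, rfl⟩ := (Nat.dvd_prime_pow Nat.prime_two).mp ((hk' _).mp hfn)
    refine hm.mpr ?_
    rcases j with _ | _ | j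
    · omega
    · exact .inr (.inr (.inl rfl))
    · exact .inr (.inl ⟨rfl, by rw [pow_add, pow_add]; omega⟩)

end Pool.Agent.Results.MP_b164a8_nt.AllParameters
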